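import Pool.Agent.H920Z.PC.Final

set_option autoImplicit false

namespace Pool.Agent.Results.MP_a1e8df_an.ANotPseudocompact

open Pool.Agent.H920Z.PC

universe u v

/-- There is an infinite icc group `G`, not inner amenable, such that no ultrapower of `L(G)` is
star isomorphic to an ultrapower of a matrix ultraproduct over a non-principal ultrafilter. -/
theorem result : ∃ (G : Type) (_ : Group G), Infinite G ∧ ICC G ∧ ¬ InnerAmenable G ∧
    ∀ U : Ultrafilter ℕ, (U : Filter ℕ) ≤ Filter.cofinite →
      ∀ (I : Type u) (J : Type v) (U₁ : Ultrafilter I) (U₂ : Ultrafilter J),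
        ¬ IsoLG G U₁ U₂ U :=
  final

end Pool.Agent.Results.MP_a1e8df_an.ANotPseudocompact
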